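import Mathlib
import Pool.Agent.H.MP_cf6e1a_co.A
import Pool.Agent.H.MP_cf6e1a_co.B
set_option autoImplicit false

namespace Pool.Agent.H.MP_7470ba_co
open Finset Module Pool.Agent.H.MP_16c276_co Pool.Agent.H.MP_cf6e1a_co
open Pool.Agent.H.MP_a8759f_co (Sh emb)

theorem anch {W K V : Type} [DecidableEq W] [Field K] [AddCommGroup V] [Module K V]
    [FiniteDimensional K V] {T : ℕ → Prop} {F : ℕ → Finset W} (h : Sh T F) (N U : Finset W)
    (hU : U ⊆ N) (e : W → W → K) (b c : W → W → V) (h1 : ∀ i, T i → 2 ≤ (F i \ N).card)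
    (h0 : ∀ i, T i → (F i \ N).card = 2 → ∃ u ∈ U, u ∈ F i)
    (h2 : ∀ i, T i → ∀ x ∈ F i \ N, ∀ y ∈ F i \ N, ∀ z ∈ F i \ N,
      e y z * e x y = e x z ∧ e y z • b x y + b y z = b x z)
    (h3 : ∀ i, T i → ∀ u ∈ U, u ∈ F i → ∀ x ∈ F i \ N, ∀ y ∈ F i \ N, e x y • c u x + b x y = c u y)
    (x0 : W) (t0 : T 0) (hx : x0 ∈ F 0 \ N) (q : V) (hq : e x0 x0 • q + b x0 x0 = q) (t : ℕ) :
    ∃ C : Submodule K V, finrank K C ≤ U.card ∧ ∃ s : W → V, s x0 - q ∈ C ∧
      ∀ i < t, T i → ∀ x ∈ F i \ N, ∀ y ∈ F i \ N, e x y • s x + b x y - s y ∈ C := by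
  classical
  let A : ℕ → Finset W := fun t => U.filter fun u => ∃ k < t, T k ∧ u ∈ F k
  suffices H : ∃ C : Submodule K V, finrank K C ≤ (A t).card ∧ ∃ s : W → V, s x0 - q ∈ C ∧
      (∀ i < t + 1, T i → ∀ x ∈ F i \ N, ∀ y ∈ F i \ N, e x y • s x + b x y - s y ∈ C) ∧
      ∀ u ∈ A t, ∃ k < t, T k ∧ u ∈ F k ∧ ∃ x ∈ F k \ N, s x - c u x ∈ C by
    obtain ⟨C, a, s, d, f, -⟩ := H
    exact ⟨C, a.trans (card_filter_le _ _), s, d, fun i hi => f i (by omega)⟩
  induction t with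
  | zero =>
    refine ⟨⊥, by simp, fun y => e x0 y • q + b x0 y, by simp [hq], fun i hi ti x a y d => ?_,
      by simp [A]⟩
    obtain rfl : i = 0 := by omega
    simp [smul_smul, add_assoc, h2 0 ti x0 hx x a y d]
  | succ t ih =>
    obtain ⟨C, a1, s, a2, a3, a4⟩ := ih
    obtain ⟨z, hz⟩ : ∃ z, T t → z ∈ F t \ N := by
      by_cases tt : T t
      · exact (card_pos.1 (two_pos.trans_le (h1 t tt))).imp fun _ a _ => a
      · exact ⟨x0, fun a => (tt a).elim⟩
    let D := C ⊔ Submodule.span K ((A (t + 1) \ A t).image fun u => s z - c u z)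
    have l : C ≤ D := le_sup_left
    obtain ⟨s', b1, b2⟩ := cont h N (A (t + 1)) (fun x y p => e x y • p + D.mkQ (b x y))
      (fun u x => D.mkQ (c u x)) h1 (fun i ti x hx y hy z hz p => by
        rw [smul_add, smul_smul, add_assoc, ← map_smul, ← map_add, (h2 i ti x hx y hy z hz).1,
          (h2 i ti x hx y hy z hz).2])
      (fun i ti u hu d x hx y hy => by
        simp only [← map_smul, ← map_add, h3 i ti u (mem_filter.1 hu).1 d x hx y hy])
      ((filter_subset _ _).trans hU) (t + 1) (fun x => D.mkQ (s x))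
      (fun i hi ti x hx y hy => by
        simp only [← map_smul, ← map_add]
        exact (Submodule.Quotient.eq _).2 (l (a3 i hi ti x hx y hy)))
      (fun u hu => by
        by_cases d : u ∈ A t
        · obtain ⟨k, k1, k2, k3, x, k4, k5⟩ := a4 u d
          exact ⟨k, by omega, k2, k3, x, k4, (Submodule.Quotient.eq _).2 (l k5)⟩
        obtain ⟨k, k1, k2, k3⟩ := (mem_filter.1 hu).2
        obtain rfl : k = t := by
          by_contra n
          exact d (mem_filter.2 ⟨(mem_filter.1 hu).1, k, by omega, k2, k3⟩)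
        exact ⟨k, k1, k2, k3, z, hz k2, (Submodule.Quotient.eq _).2 (Submodule.mem_sup_right
          (Submodule.subset_span (mem_image_of_mem _ (mem_sdiff.2 ⟨hu, d⟩))))⟩)
      (t + 2) (by omega) fun r hr tr d k hk tk f => by
        obtain ⟨u, u1, u2⟩ := h0 r tr d
        exact ⟨u, mem_filter.2 ⟨u1, k, by omega, tk, f (mem_inter.2 ⟨u2, hU u1⟩)⟩, u2⟩
    choose s2 hs using fun x => D.mkQ_surjective (s' x)
    have k : ∀ i < t + 1, T i → ∀ p ∈ F i, ∀ v, s p - v ∈ D → s2 p - v ∈ D := fun i a d p f v g =>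
      (Submodule.Quotient.eq _).1 (((hs p).trans (b1 i a d p f)).trans ((Submodule.Quotient.eq _).2 g))
    refine ⟨D, (Submodule.finrank_add_le_finrank_add_finrank _ _).trans ?_, s2,
      k 0 (by omega) t0 x0 (mem_sdiff.1 hx).1 q (l a2), fun i hi ti x hx y hy => ?_, fun u hu => ?_⟩
    · have := (finrank_span_finset_le_card (R := K) _).trans
        (card_image_le (s := A (t + 1) \ A t) (f := fun u => s z - c u z))
      have := card_sdiff_add_card_eq_card (s := A t) (t := A (t + 1)) fun u hu => by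
        obtain ⟨a, k, k1, k2⟩ := mem_filter.1 hu
        exact mem_filter.2 ⟨a, k, by omega, k2⟩
      unfold Set.finrank at *
      omega
    · have := b2 i hi ti x hx y hy
      simp only [← hs, ← map_smul, ← map_add] at this
      exact (Submodule.Quotient.eq _).1 this
    · by_cases d : u ∈ A t
      · obtain ⟨j, k1, k2, k3, x, k4, k5⟩ := a4 u d
        exact ⟨j, by omega, k2, k3, x, k4, k j (by omega) k2 x (mem_sdiff.1 k4).1 _ (l k5)⟩
      obtain ⟨j, k1, k2, k3⟩ := (mem_filter.1 hu).2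
      obtain rfl : j = t := by
        by_contra n
        exact d (mem_filter.2 ⟨(mem_filter.1 hu).1, j, by omega, k2, k3⟩)
      exact ⟨j, k1, k2, k3, z, hz k2, k j k1 k2 z (mem_sdiff.1 (hz k2)).1 _ (Submodule.mem_sup_right
        (Submodule.subset_span (mem_image_of_mem _ (mem_sdiff.2 ⟨hu, d⟩))))⟩

theorem sph3 {n : ℕ} (σ : Finset (Fin n)) (h : σ.card = 5) :
    Nonempty (R (fun G => ∃ i ∈ σ, G = σ.erase i) ≃ₜ
      Metric.sphere (0 : EuclideanSpace ℝ (Fin 4)) 1) := by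
  let T : Set (EuclideanSpace ℝ (Fin 4)) := {y | (∀ i, 0 ≤ y i) ∧ y 0 + y 1 + y 2 + y 3 ≤ 1}
  have t1 : Convex ℝ T := fun x hx y hy a b ha hb h => ⟨fun i => by
      have := hx.1 i
      have := hy.1 i
      simp only [PiLp.add_apply, PiLp.smul_apply, smul_eq_mul]
      positivity, by
    simp only [PiLp.add_apply, PiLp.smul_apply, smul_eq_mul]
    nlinarith [mul_le_mul_of_nonneg_left hx.2 ha, mul_le_mul_of_nonneg_left hy.2 hb]⟩
  have t2 : IsClosed T := by
    simp only [T, Set.ofPred_and, Set.ofPred_forall]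
    exact (isClosed_iInter fun i => isClosed_le (by fun_prop) (by fun_prop)).inter
      (isClosed_le (by fun_prop) (by fun_prop))
  have t3 : ∀ y, y ∈ interior T ↔ (∀ i, 0 < y i) ∧ y 0 + y 1 + y 2 + y 3 < 1 := fun y => by
    have o : IsOpen {y : EuclideanSpace ℝ (Fin 4) | (∀ i, 0 < y i) ∧ y 0 + y 1 + y 2 + y 3 < 1} := by
      simp only [Set.ofPred_and, Set.ofPred_forall]
      exact (isOpen_iInter_of_finite fun i => isOpen_lt (by fun_prop) (by fun_prop)).inter
        (isOpen_lt (by fun_prop) (by fun_prop))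
    refine ⟨fun hy => ?_, fun hy => interior_maximal (fun y hy =>
      show y ∈ T from ⟨fun i => (hy.1 i).le, hy.2.le⟩) o hy⟩
    obtain ⟨ε, e0, e1⟩ := Metric.mem_nhds_iff.1 (mem_interior_iff_mem_nhds.1 hy)
    have k : ∀ i r, |r| < ε → y + EuclideanSpace.single i r ∈ T := fun i r hr => e1 (by simpa using hr)
    refine ⟨fun i => ?_, ?_⟩
    · have := (k i (-(ε / 2)) (by rw [abs_neg, abs_of_pos] <;> linarith)).1 i
      simp at this
      linarith
    · have := (k 0 (ε / 2) (by rw [abs_of_pos] <;> linarith)).2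
      simp at this
      linarith
  have t4 : Bornology.IsBounded T := by
    refine (Metric.isBounded_closedBall (x := 0) (r := 1)).subset fun y hy => ?_
    rw [mem_closedBall_zero_iff, EuclideanSpace.norm_eq, Real.sqrt_le_one, Fin.sum_univ_four]
    have a0 := hy.1 0
    have a1 := hy.1 1
    have a2 := hy.1 2
    have a3 := hy.1 3
    have := hy.2
    simp only [Real.norm_eq_abs, sq_abs]
    nlinarith
  obtain ⟨H, -, -, h2⟩ := exists_homeomorph_image_interior_closure_frontier_eq_unitBall t1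
    ⟨WithLp.toLp 2 fun _ => 1 / 8, (t3 _).2 ⟨fun i => by simp, by norm_num⟩⟩ t4
  let P : Finset (Fin 5) → Prop := fun G => ∃ i, G = univ.erase i
  let f : (Fin 5 → ℝ) → EuclideanSpace ℝ (Fin 4) := fun x => WithLp.toLp 2 ![x 0, x 1, x 2, x 3]
  let g : EuclideanSpace ℝ (Fin 4) → Fin 5 → ℝ := fun y =>
    ![y 0, y 1, y 2, y 3, 1 - (y 0 + y 1 + y 2 + y 3)]
  have f1 : ∀ x ∈ R P, f x ∈ frontier T ∧ g (f x) = x := by
    rintro x ⟨x0, x1, _, ⟨j, rfl⟩, x2⟩
    rw [Fin.sum_univ_five] at x1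
    have x3 := x2 j (by simp)
    have := x0 4
    rw [t2.frontier_eq, Set.mem_sdiff, t3]
    refine ⟨⟨⟨fun i => by fin_cases i <;> exact x0 _, by simp [f]; linarith⟩, fun ⟨a, b⟩ => ?_⟩,
      funext fun i => ?_⟩
    · fin_cases j
      exacts [(a 0).ne' x3, (a 1).ne' x3, (a 2).ne' x3, (a 3).ne' x3, by simp [f] at b x3; linarith]
    · fin_cases i <;> first | rfl | skip
      simp [f, g]
      linarith
  have g1 : ∀ y ∈ frontier T, g y ∈ R P := fun y hy => by
    rw [t2.frontier_eq, Set.mem_sdiff, t3] at hy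
    have a : ∀ i, 0 ≤ g y i := fun i => by
      fin_cases i
      exacts [hy.1.1 0, hy.1.1 1, hy.1.1 2, hy.1.1 3, sub_nonneg.2 hy.1.2]
    obtain ⟨j, hj⟩ : ∃ j, g y j = 0 := by
      by_contra! c
      have b := fun i => (a i).lt_of_ne' (c i)
      exact hy.2 ⟨fun i => by fin_cases i; exacts [b 0, b 1, b 2, b 3], sub_pos.1 (b 4)⟩
    exact ⟨a, by simp [g, Fin.sum_univ_succ]; ring, _, ⟨j, rfl⟩, fun i hi => by
      rwa [show i = j by simpa using hi]⟩
  have g2 : ∀ y, f (g y) = y := fun y => by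
    ext i
    fin_cases i <;> rfl
  have f3 : Continuous f := by fun_prop
  have g3 : Continuous g := by fun_prop
  obtain ⟨e⟩ := emb (σ.orderEmbOfFin h).toEmbedding P
  refine ⟨(Homeomorph.setCongr ?_).trans (e.trans (Homeomorph.trans (Y := frontier T)
    ⟨⟨fun x => ⟨f x, (f1 x x.2).1⟩, fun y => ⟨g y, g1 y y.2⟩,
    fun x => Subtype.ext (f1 x x.2).2, fun y => Subtype.ext (g2 y)⟩,
    (f3.comp continuous_subtype_val).subtype_mk _, (g3.comp continuous_subtype_val).subtype_mk _⟩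
    ((H.image _).trans (Homeomorph.setCongr h2))))⟩
  congr 1
  ext G
  constructor
  · rintro ⟨i, hi, rfl⟩
    obtain ⟨j, rfl⟩ := (σ.range_orderEmbOfFin h).ge hi
    exact ⟨_, ⟨j, rfl⟩, by simp [map_erase]⟩
  · rintro ⟨_, ⟨j, rfl⟩, rfl⟩
    exact ⟨_, σ.orderEmbOfFin_mem h j, by simp [map_erase]⟩

def Rule {n : ℕ} (P : ℕ → Finset (Finset (Fin n)) → Prop) : Prop :=
  (∀ σ : Finset (Fin n), P σ.card {σ}) ∧
  ∀ (k : ℕ) (F₁ F₂ G : Finset (Finset (Fin n))), 1 ≤ k →
    (∀ σ ∈ F₁, σ.card = k) → (∀ σ ∈ F₂, σ.card = k) → P k F₁ → P k F₂ →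
    (∀ γ ∈ G, γ.card = k - 1) →
    (∀ ρ : Finset (Fin n), (∃ γ ∈ G, ρ ⊆ γ) ↔ (∃ σ ∈ F₁, ∃ τ ∈ F₂, ρ ⊆ σ ∧ ρ ⊆ τ)) →
    P (k - 1) G → P k (F₁ ∪ F₂)

noncomputable def un (l l' g : List ℕ) : Bool := cov g l && cov g l' &&
  l.all fun a => l'.all fun b => force (Nat.land a b) fun m => g.any fun r => Nat.beq (Nat.land r m) m

def Q {n : ℕ} (P : ℕ → Finset (Finset (Fin n)) → Prop) (k : ℕ) (l : List ℕ) : Prop :=
  (∀ σ ∈ cx n l, σ.card = k) ∧ P k (cx n l)

theorem un_ok {n k : ℕ} {P : ℕ → Finset (Finset (Fin n)) → Prop} (hP : Rule P) {l l' g : List ℕ}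
    (h : un l l' g = true) (a : Q P (k + 1) l) (b : Q P (k + 1) l') (c : Q P k g) :
    Q P (k + 1) (l ++ l') := by
  simp only [un, cov, force_eq, Bool.and_eq_true, List.all_eq_true, List.any_eq_true, beq_iff_eq,
    Nat.beq_eq] at h
  have e : cx n (l ++ l') = cx n l ∪ cx n l' := by simp [cx]
  rw [Q, e]
  refine ⟨fun σ h => (mem_union.1 h).elim (a.1 σ) (b.1 σ), hP.2 _ _ _ (cx n g) (by omega) a.1 b.1 a.2 b.2
    c.1 (fun ρ => ⟨?_, ?_⟩) c.2⟩
  · rintro ⟨_, d, f⟩
    obtain ⟨m, hm, rfl⟩ := mem_cx.1 d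
    obtain ⟨x, x1, x2⟩ := h.1.1 m hm
    obtain ⟨y, y1, y2⟩ := h.1.2 m hm
    exact ⟨_, mem_cx.2 ⟨x, x1, rfl⟩, _, mem_cx.2 ⟨y, y1, rfl⟩, f.trans (sub1 x2), f.trans (sub1 y2)⟩
  · rintro ⟨_, d, _, f, i, j⟩
    obtain ⟨x, x1, rfl⟩ := mem_cx.1 d
    obtain ⟨y, y1, rfl⟩ := mem_cx.1 f
    obtain ⟨r, r1, r2⟩ := h.2 x x1 y y1
    exact ⟨_, mem_cx.2 ⟨r, r1, rfl⟩, (subset_inter i j).trans (dec_and.trans_subset (sub1 r2))⟩

noncomputable def shl (n k : ℕ) : List ℕ → Bool :=
  Nat.rec (fun l => l == [0]) (fun k ih l => List.rec false (fun f t r => (bt n f).length == k + 1 &&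
    (t.isEmpty || fL (((bt n f).map fun i => f ^^^ 2 ^ i).filter fun r => cov [r] t)
      fun g => un [f] t g && ih g && r)) l) k

theorem shl_ok {n : ℕ} {P : ℕ → Finset (Finset (Fin n)) → Prop} (hP : Rule P) (k : ℕ) :
    ∀ l, shl n k l = true → Q P k l := by
  have o : ∀ f k, (dec n f).card = k → Q P k [f] := fun f k h => by
    subst h
    have : cx n [f] = {dec n f} := by simp [cx]
    rw [Q, this]
    exact ⟨by simp, hP.1 _⟩
  induction k with
  | zero =>
    intro l h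
    obtain rfl : l = [0] := beq_iff_eq.1 h
    exact o 0 0 (by simp [dec])
  | succ k ih =>
    intro l
    induction l with
    | nil => exact fun h => (Bool.false_ne_true h).elim
    | cons f t i2 =>
      intro h
      change ((bt n f).length == k + 1 && (t.isEmpty || fL _ fun g => un [f] t g && shl n k g &&
        shl n (k + 1) t)) = true at h
      simp only [fL_eq, Bool.and_eq_true, Bool.or_eq_true, List.isEmpty_iff, beq_iff_eq] at h
      rcases h with ⟨a, rfl | ⟨⟨b, c⟩, d⟩⟩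
      exacts [o _ _ (card_dec.trans a), un_ok hP b (o _ _ (card_dec.trans a)) (i2 d) (ih _ c)]

end Pool.Agent.H.MP_7470ba_co
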